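import Pool.Agent.R432.JG.Common
import Pool.Agent.R432.JG.Cube
import Pool.Agent.R486.TC.Cmp

/-!
# `X³ + Y³ = A` over `ℚ(ω, ∛l : l ∈ M)` and its subfields, for many `A` at the same time

`M` is any finite set of primes `≡ 1` modulo `9`, `n = #M`, and `Ω = ℚ(ω, ∛l : l ∈ M)`, a Galois extension
of `ℚ` of degree `2 · 3 ^ n`.  `D` runs through the squarefree numbers, prime to `3` and to `M`, not `±1`
modulo `9`, that are divisible by exactly one prime `2` modulo `3`, ordered by size.  The criterion `Crit`: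
none of the `3 ^ n` numbers `D ∏ l^{t_l}`, `t_l = 0, 1, 2`, has a splitting (a finite condition on cubic
residues modulo the prime factors of `D` and the `l ∈ M`).  We prove:

* the criterion is computable (it is primitive recursive);
* if `D ≠ 2` satisfies the criterion then for ALL `A = D ∏_{l ∈ M} l^{e_l}`, `e_l ≥ 0`, and for ALL number
  fields `F` that can be embedded in `Ω` (for example `F = ℚ`, `F = ℚ(∛(l l'²))`, `F = Ω`) the equation
  `x³ + y³ = A` has no solution with `x`, `y` in `F`: so `C_A(F)` consists of the points at infinity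
  (`C_A(F) = {O}` if `ω ∉ F`), and generators are known;
* the proportion of the `D` that satisfy the criterion tends exactly to `c ^ {3 ^ n}`,
  `c = ∏_{i ≥ 1} (1 - 3^{-i}) = 0.5601...`; there are at least `a X / √(log X)` such `D ≤ X`.

The proof.  (1) The joint law of the residue matrices of the `3 ^ n` cubic twists (project JL, see
`MP_f50388_nt/FixedCubicRadicalFields`) gives the proportion, and the descent over `ℚ(ω)` and `Ω` that
`E_D(Ω)` is finite for `E_D : y² + D y = x³`, which is `3`-isogenous to `C_D`.  (2) New here: the exact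
group.  The completions of `Ω` at the places above three are equal to `ℚ_3(ω)`, where the points of order
prime to three of `E_D` have order at most two (computation of helper419, `R419/ST`); there are no points of
order two over `Ω`, because `2 D²` is not a cube in `Ω` (Kummer theory); the points of order a power of
three are `O`, `(0, 0)` and `(0, -D)` (complex multiplication).  So `E_D(Ω) = {O, (0, 0), (0, -D)}`, and the
isogeny `(x, y) ↦ (-x y, -x³)` shows that there are no affine points on `C_D`.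

Authors of the parts of project JL: helper962, helper159, helper152, helper916, helper258, helper432; that
the absence of splittings is primitive recursive is due to helper486 (`R486/TC/Cmp`).
-/

set_option autoImplicit false

namespace Pool.Agent.Results.MP_8e0b0b_nt.CubicRadicalFields

open NumberField Filter Topology
open scoped Classical

/-- `D` is squarefree, not divisible by `3`, not `±1` modulo `9`, not divisible by the elements of `M`,
and divisible by exactly one prime that is `2` modulo `3`. -/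
def InClass (M : Finset ℕ) (D : ℕ) : Prop :=
  Squarefree D ∧ ¬ 3 ∣ D ∧ D % 9 ≠ 1 ∧ D % 9 ≠ 8 ∧ (∀ l ∈ M, ¬ l ∣ D) ∧
    ∃ q : ℕ, q.Prime ∧ q % 3 = 2 ∧ q ∣ D ∧ ∀ p : ℕ, p.Prime → p ∣ D → p ≠ q → p % 3 = 1

/-- In every factorization of `D` in coprime factors `d₀ d₁ d₂` for which `d₁ d₂²`, `d₂ d₀²`,
`d₀ d₁²` are cubes modulo the primes dividing `d₀`, `d₁`, `d₂` respectively, two factors are `1`. -/
def HasNoSplitting (D : ℕ) : Prop :=
  ∀ d : ZMod 3 → ℕ, ∏ c, d c = D → (∀ c c', c ≠ c' → Nat.Coprime (d c) (d c')) →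
    (∀ (c : ZMod 3) (p : ℕ), p.Prime → p ∣ d c →
      ∃ x : ℤ, (p : ℤ) ∣ (d (c + 1) : ℤ) * (d (c + 2) : ℤ) ^ 2 - x ^ 3) →
    ∃ c, ∀ c', c' ≠ c → d c' = 1

/-- The criterion: `D` is in the class, and no number `D ∏_{l ∈ M} l ^ (t l)` with exponents `0`, `1`,
`2` has a splitting. -/
def Crit (M : Finset ℕ) (D : ℕ) : Prop :=
  InClass M D ∧ ∀ t : {l : ℕ // l ∈ M} → ZMod 3,
    HasNoSplitting (D * ∏ l : {l : ℕ // l ∈ M}, l.1 ^ (t l).val)

/-- `Ω` is generated by `ω` and cube roots of the elements of `M`. -/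
def Closure (M : Finset ℕ) (Ω : Type) [Field Ω] : Prop :=
  ∃ (ω : Ω) (r : ℕ → Ω), ω ^ 2 + ω + 1 = 0 ∧ (∀ l ∈ M, r l ^ 3 = (l : Ω)) ∧
    ∀ S : Subfield Ω, ω ∈ S → (∀ l ∈ M, r l ∈ S) → S = ⊤

/-- The field `F` can be embedded in a number field `Ω = ℚ(ω, ∛l : l ∈ M)`. -/
def Inside (M : Finset ℕ) (F : Type) [Field F] : Prop :=
  ∃ (Ω : Type) (_ : Field Ω) (_ : NumberField Ω), Closure M Ω ∧ Nonempty (F →+* Ω)

/-- For all exponents `e l ≥ 0` and all number fields `F` inside `Ω` the equation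
`x³ + y³ = D ∏_{l ∈ M} l ^ (e l)` has no solution with `x`, `y` in `F`. -/
def NoSolutions (M : Finset ℕ) (D : ℕ) : Prop :=
  ∀ (e : ℕ → ℕ) (F : Type) [Field F] [NumberField F], Inside M F →
    ∀ x y : F, x ^ 3 + y ^ 3 ≠ ((D * ∏ l ∈ M, l ^ e l : ℕ) : F)

/-- The number of the `D ≤ X` in the class with the property `Q`. -/
noncomputable def num (M : Finset ℕ) (Q : ℕ → Prop) (X : ℕ) : ℕ :=
  ((Finset.Icc 1 X).filter fun D => InClass M D ∧ Q D).card

/-- `c = ∏_{i ≥ 1} (1 - 3^{-i})`. -/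
noncomputable def c : ℝ := ∏' i : ℕ, (1 - (1 / 3 : ℝ) ^ (i + 1))

section proof

open Pool.Agent.R432.JG (Cl cl_iff pre_of twN all_goodK exists_genK law_cnt)
open Pool.Agent.R413.MQ.Bin (cnt cnt_card cnt_congr)
open Pool.Agent.R486.TC (Class NoSplit NoSplitB noSplitB_iff pclass pnosplit ball imp pdvd peq pne
  pmul)

variable {M : Finset ℕ}

theorem num_eq (Q : ℕ → Prop) (X : ℕ) : num M Q X = cnt (Cl M) Q X := by
  unfold num
  symm
  refine cnt_card fun D => ?_
  rw [Finset.mem_filter, show InClass M D ↔ Cl M D from (cl_iff M D).symm]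

/-- finite conjunctions -/
theorem pall {ι : Type} [DecidableEq ι] (s : Finset ι) {p : ι → ℕ → Prop}
    (h : ∀ i, PrimrecPred (p i)) : PrimrecPred (fun D => ∀ i ∈ s, p i D) := by
  induction s using Finset.induction_on with
  | empty =>
    refine (peq (Primrec.const 0) (Primrec.const 0)).of_eq fun D => ?_
    simp
  | insert a s ha ih =>
    refine ((h a).and ih).of_eq fun D => ?_
    rw [Finset.forall_mem_insert]

theorem psqf : PrimrecPred (fun D : ℕ => D ≠ 0 ∧ ∀ x < D + 1, x * x ∣ D → x = 1) := by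
  have hid : Primrec (fun D : ℕ => D) := Primrec.id
  refine (pne hid (Primrec.const 0)).and (ball (Primrec.succ.comp hid) ?_)
  exact imp (pdvd (pmul Primrec.fst Primrec.fst) Primrec.snd) (peq Primrec.fst (Primrec.const 1))

theorem sqf_iff (D : ℕ) : (D ≠ 0 ∧ ∀ x < D + 1, x * x ∣ D → x = 1) ↔ Squarefree D := by
  constructor
  · rintro ⟨h0, h⟩ x hx
    rw [Nat.isUnit_iff]
    refine h x ?_ hx
    have h1 := Nat.le_of_dvd (Nat.pos_of_ne_zero h0) hx
    have h2 : x ≤ x * x := by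
      rcases Nat.eq_zero_or_pos x with h3 | h3
      · rw [h3]
      · exact Nat.le_mul_of_pos_left x h3
    omega
  · intro h
    exact ⟨h.ne_zero, fun x _ hx => Nat.isUnit_iff.1 (h x hx)⟩

theorem crit_primrec (hM : ∀ l ∈ M, l.Prime ∧ l % 9 = 1) : PrimrecPred (Crit M) := by
  have h1 : PrimrecPred (fun D : ℕ => (D ≠ 0 ∧ ∀ x < D + 1, x * x ∣ D → x = 1) ∧ Class D ∧
      (∀ l ∈ M, ¬ l ∣ D) ∧ ∀ t ∈ (Finset.univ : Finset ({l : ℕ // l ∈ M} → ZMod 3)),
        NoSplitB (D * ∏ l : {l : ℕ // l ∈ M}, l.1 ^ (t l).val)) := by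
    refine psqf.and (pclass.and ((pall M fun l =>
      (pdvd (Primrec.const l) Primrec.id).not).and (pall Finset.univ fun t => ?_)))
    exact pnosplit.comp (pmul Primrec.id (Primrec.const _))
  refine PrimrecPred.of_eq (p := fun D : ℕ => (D ≠ 0 ∧ ∀ x < D + 1, x * x ∣ D → x = 1) ∧
    Class D ∧ (∀ l ∈ M, ¬ l ∣ D) ∧ ∀ t ∈ (Finset.univ : Finset ({l : ℕ // l ∈ M} → ZMod 3)),
        NoSplitB (D * ∏ l : {l : ℕ // l ∈ M}, l.1 ^ (t l).val)) h1 fun D => ?_
  have hprod : ∀ t : {l : ℕ // l ∈ M} → ZMod 3,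
      (∏ l : {l : ℕ // l ∈ M}, l.1 ^ (t l).val) ≠ 0 := fun t =>
    Finset.prod_ne_zero_iff.2 fun l _ => pow_ne_zero _ (hM l.1 l.2).1.ne_zero
  constructor
  · rintro ⟨ha, hb, hc, hd⟩
    refine ⟨⟨(sqf_iff D).1 ha, hb.2.2.1, hb.2.2.2.1, hb.2.2.2.2.1, hc, hb.2.2.2.2.2⟩, fun t => ?_⟩
    exact (noSplitB_iff (mul_ne_zero ha.1 (hprod t))).1 (hd t (Finset.mem_univ t))
  · rintro ⟨⟨ha, h3, h4, h5, h6, h7⟩, hd⟩
    refine ⟨(sqf_iff D).2 ha, ⟨ha.ne_zero, fun p hp h8 => ?_, h3, h4, h5, h7⟩, h6, fun t _ => ?_⟩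
    · have h9 : p * p ∣ D := (Dvd.intro p (by ring)).trans h8
      exact hp.one_lt.ne' (Nat.isUnit_iff.1 (ha p h9))
    · exact (noSplitB_iff (mul_ne_zero ha.ne_zero (hprod t))).2 (hd t)

theorem nosol (hM : ∀ l ∈ M, l.Prime ∧ l % 9 = 1) {D : ℕ} (hD : Crit M D) (hD2 : D ≠ 2) :
    NoSolutions M D := by
  rintro e F _ _ ⟨Ω, i1, i2, ⟨ω, r, h1, h2, h3⟩, ⟨f⟩⟩ x y hxy
  have hC : Cl M D := (cl_iff M D).2 hD.1
  obtain ⟨-, hfin, -⟩ := all_goodK hC.2.1 (pre_of hM hC) (fun t => hD.2 t) ω h1 r h2 h3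
  have hr0 : ∀ l ∈ M, r l ≠ 0 := by
    intro l hl h0
    have h4 := h2 l hl
    rw [h0] at h4
    exact (Nat.cast_ne_zero.2 (hM l hl).1.ne_zero) (by rw [← h4]; norm_num)
  set μ : Ω := ∏ l ∈ M, r l ^ e l with hμ
  have hμ0 : μ ≠ 0 := Finset.prod_ne_zero_iff.2 fun l hl => pow_ne_zero _ (hr0 l hl)
  have hμ3 : μ ^ 3 = ((∏ l ∈ M, l ^ e l : ℕ) : Ω) := by
    rw [hμ, ← Finset.prod_pow]
    push_cast
    refine Finset.prod_congr rfl fun l hl => ?_
    rw [← pow_mul, mul_comm, pow_mul, h2 l hl]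
  have h4 := congrArg f hxy
  rw [map_add, map_pow, map_pow, map_natCast] at h4
  refine Pool.Agent.R432.JG.Cube.no_sol (fun l hl => (hM l hl).1) h1 h2 h3
    (fun l hl => (hM l hl).2) hD.1.1 hD.1.2.1 hD.1.2.2.1 hD.1.2.2.2.1 hD2 hD.1.2.2.2.2.1 hfin
    (f x / μ) (f y / μ) ?_
  rw [div_pow, div_pow, ← add_div, h4, hμ3]
  push_cast
  rw [mul_div_assoc, div_self, mul_one]
  have h5 := pow_ne_zero 3 hμ0
  rw [hμ3] at h5
  push_cast at h5
  exact h5

end proof

open Pool.Agent.R432.JG (Cl cl_iff law_cnt)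
open Pool.Agent.R413.MQ.Bin (cnt cnt_card cnt_congr)

/-- **Main theorem.** -/
theorem result (M : Finset ℕ) (hM : ∀ l ∈ M, l.Prime ∧ l % 9 = 1) :
    ComputablePred (Crit M) ∧
    (∃ (Ω : Type) (_ : Field Ω) (_ : NumberField Ω), Closure M Ω) ∧
    (∀ D : ℕ, Crit M D → D ≠ 2 → NoSolutions M D) ∧
    (0.56 : ℝ) < c ∧
    Tendsto (fun X : ℕ => (num M (Crit M) X : ℝ) / (num M (fun _ => True) X : ℝ)) atTop
      (𝓝 (c ^ 3 ^ M.card)) ∧
    ∃ a : ℝ, 0 < a ∧ ∃ X₀ : ℕ, ∀ X : ℕ, X₀ ≤ X →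
      a * X / Real.sqrt (Real.log X) ≤ (num M (Crit M) X : ℝ) := by
  have hc1 : (0.56 : ℝ) < c := Pool.Agent.R432.JG.c3_gt
  have hc0 : 0 < c := by linarith
  have hcard : (Finset.univ : Finset ({l : ℕ // l ∈ M} → ZMod 3)).card = 3 ^ M.card := by
    rw [Finset.card_univ, Fintype.card_fun, ZMod.card, Fintype.card_coe]
  have hlaw : Tendsto (fun X : ℕ => (num M (Crit M) X : ℝ) / (num M (fun _ => True) X : ℝ)) atTop
      (𝓝 (c ^ 3 ^ M.card)) := by
    have h := law_cnt hM Finset.univ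
    rw [hcard] at h
    refine h.congr fun X => ?_
    rw [num_eq, num_eq]
    congr 2
    refine cnt_congr (fun D hD => ?_) X
    constructor
    · intro h1
      exact ⟨(cl_iff M D).1 hD, fun t => h1 t (Finset.mem_univ t)⟩
    · intro h1 t _
      exact h1.2 t
  have e2 : ∀ X, (num M (fun _ => True) X : ℝ) =
      (((Finset.Icc 1 X).filter fun D => Cl M D).card : ℝ) := by
    intro X
    have : num M (fun _ => True) X = ((Finset.Icc 1 X).filter fun D => Cl M D).card := by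
      rw [num_eq]
      refine Pool.Agent.R413.MQ.Bin.cnt_card fun D => ?_
      rw [Finset.mem_filter, and_iff_left trivial]
    rw [this]
  refine ⟨(crit_primrec hM).computablePred, ?_, fun D hD hD2 => nosol hM hD hD2, hc1, hlaw, ?_⟩
  · obtain ⟨L, i1, i2, z, r, h1, h2, h3⟩ := Pool.Agent.R432.JG.exists_genK M
    exact ⟨L, i1, i2, z, r, h1, h2, h3⟩
  · have hp : 0 < c ^ 3 ^ M.card := by positivity
    obtain ⟨X₀, h⟩ := Filter.eventually_atTop.1
      ((hlaw.eventually (lt_mem_nhds (half_lt_self hp))).and (Pool.Agent.R432.JG.ev_pos hM))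
    obtain ⟨c₀, hc₀, X₁, h1⟩ := Pool.Agent.R432.JG.low hM
    refine ⟨c ^ 3 ^ M.card / 2 * c₀, by positivity, max X₀ X₁, fun X hX => ?_⟩
    obtain ⟨h2, h3⟩ := h X ((le_max_left _ _).trans hX)
    have h4 := h1 X ((le_max_right _ _).trans hX)
    rw [← e2] at h3 h4
    rw [lt_div_iff₀ h3] at h2
    have h5 : c ^ 3 ^ M.card / 2 * c₀ * X / Real.sqrt (Real.log X) =
        c ^ 3 ^ M.card / 2 * (c₀ * X / Real.sqrt (Real.log X)) := by ring
    rw [h5]
    exact (mul_le_mul_of_nonneg_left h4 (by positivity)).trans h2.le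

end Pool.Agent.Results.MP_8e0b0b_nt.CubicRadicalFields
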