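import Mathlib
import Pool.Agent.R419.CF.Low
import Pool.Agent.R486.TC.FinPts
import Pool.Agent.R419.CF.Fin
import Pool.Agent.R486.TC.NoPt
import Pool.Agent.R486.TC.Cmp
import Pool.Agent.R486.TC.Dens

/-!
# MP_8e0b0b_nt: a primitive recursive criterion which determines `C_A(ℚ)` for exactly 56 percent of
the integers `A` of a class

`C_A : X³ + Y³ = A`.  The family consists of all integers `A ≠ 0` of both signs whose cube-free part
`D` (`|A| = D n³`) is prime to `3`, not `±1` modulo `9`, and has exactly one prime factor congruent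
to `2` modulo `3`.  The criterion `Good`: moreover `D` does not split.  It is primitive recursive,
hence decidable by an algorithm which always halts; it implies that every rational point of
`X³ + Y³ = A` has `X = Y` (so `C_A(ℚ) = {O}`, or `A = 2 m³` and `C_A(ℚ) = {O, (m, m)}`, and
generators of `C_A(ℚ)` are known); it holds for the exact limit proportion
`∏_{i ≥ 1} (1 - 3^{-i}) = 0.5601...` of all `A` of the family with `|A| ≤ X`.

The arithmetic of the curves `y² + D y = x³` (starting files `Pool/Agent/Y703/CT`, `Y703/CX`) and the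
proportion for cube-free `D` (`Pool/Agent/R419/CF`, helper419) are used.  New here: no rational points
at all (a rational point which is not on the diagonal would give infinitely many), all integers `A`
instead of the cube-free ones, and the recursiveness of the criterion (`Pool/Agent/R486/TC`).
-/

set_option autoImplicit false

open scoped Classical

namespace Pool.Agent.Results.MP_8e0b0b_nt.CubicTwistsCriterion

/-- the class: `D` cube-free, prime to `3`, not `±1` modulo `9`, exactly one prime factor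
congruent to `2` modulo `3` -/
def Class (D : ℕ) : Prop :=
  D ≠ 0 ∧ (∀ p : ℕ, p.Prime → ¬ p ^ 3 ∣ D) ∧ ¬ 3 ∣ D ∧ D % 9 ≠ 1 ∧ D % 9 ≠ 8 ∧
    ∃ q : ℕ, q.Prime ∧ q % 3 = 2 ∧ q ∣ D ∧ ∀ p : ℕ, p.Prime → p ∣ D → p ≠ q → p % 3 = 1

/-- `D` is not a product `d₀ d₁ d₂` of coprime factors, at least two of them different from `1`,
such that `d₁ d₂²`, `d₂ d₀²`, `d₀ d₁²` are cubes modulo the primes dividing `d₀`, `d₁`, `d₂` -/
def NoSplit (D : ℕ) : Prop :=
  ∀ d : ZMod 3 → ℕ, ∏ c, d c = D → (∀ c c', c ≠ c' → Nat.Coprime (d c) (d c')) →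
    (∀ (c : ZMod 3) (p : ℕ), p.Prime → p ∣ d c →
      ∃ x : ℤ, (p : ℤ) ∣ (d (c + 1) : ℤ) * (d (c + 2) : ℤ) ^ 2 - x ^ 3) →
    ∃ c, ∀ c', c' ≠ c → d c' = 1

/-- the family: the cube-free part of `N` is in the class -/
def Family (N : ℕ) : Prop := ∃ D n : ℕ, N = D * n ^ 3 ∧ n ≠ 0 ∧ Class D

/-- the criterion: the cube-free part of `N` is in the class and does not split -/
def Good (N : ℕ) : Prop := ∃ D n : ℕ, N = D * n ^ 3 ∧ n ≠ 0 ∧ Class D ∧ NoSplit D

theorem class_iff (D : ℕ) : Class D ↔ Pool.Agent.Y703.CT.Cls D := by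
  unfold Class Pool.Agent.Y703.CT.Cls Pool.Agent.Y703.CT.Base
  constructor
  · rintro ⟨h1, h2, h3, h4, h5, h6⟩
    exact ⟨⟨h1, h3, h2⟩, h4, h5, h6⟩
  · rintro ⟨⟨h1, h3, h2⟩, h4, h5, h6⟩
    exact ⟨h1, h2, h3, h4, h5, h6⟩

theorem noSplit_iff (D : ℕ) : NoSplit D ↔ Pool.Agent.Y703.CT.NoSplit D := Iff.rfl

theorem points {A : ℤ} (h : Good A.natAbs) {X Y : ℚ} (hXY : X ^ 3 + Y ^ 3 = A) : X = Y := by
  obtain ⟨D, n, h1, h2, h3, h4⟩ := h
  have hcf : ∀ p : ℕ, p.Prime → ¬ p ^ 3 ∣ D := h3.2.1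
  have hD1 : 1 < D := by
    have e0 := h3.1
    have e1 := h3.2.2.2.1
    rcases Nat.lt_or_ge 1 D with h | h
    · exact h
    · exfalso
      have : D = 1 := by omega
      rw [this] at e1
      norm_num at e1
  have hfin := Pool.Agent.R486.TC.fin_of ((class_iff D).1 h3) ((noSplit_iff D).1 h4)
  have hn : (n : ℚ) ≠ 0 := by exact_mod_cast h2
  have key : ∀ s : ℚ, (s = 1 ∨ s = -1) → (A : ℚ) = s * (D * (n : ℚ) ^ 3) → X = Y := by
    intro s hs hA
    have hs3 : s ^ 3 = s := by rcases hs with rfl | rfl <;> norm_num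
    have hss : s * s = 1 := by rcases hs with rfl | rfl <;> norm_num
    have hs0 : s ≠ 0 := by rcases hs with rfl | rfl <;> norm_num
    have h5 : (s * X / n) ^ 3 + (s * Y / n) ^ 3 = D := by
      have h6 : (s * X / n) ^ 3 + (s * Y / n) ^ 3 = s ^ 3 * (X ^ 3 + Y ^ 3) / (n : ℚ) ^ 3 := by
        field_simp
      rw [h6, hXY, hA, hs3]
      have h7 : s * (s * (D * (n : ℚ) ^ 3)) = D * (n : ℚ) ^ 3 := by
        rw [← mul_assoc, hss, one_mul]
      rw [h7]
      field_simp
    have h8 := Pool.Agent.R486.TC.diag_of_finite hcf hD1 hfin h5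
    rw [div_left_inj' hn] at h8
    exact mul_left_cancel₀ hs0 h8
  rcases Int.natAbs_eq A with hA | hA
  · refine key 1 (Or.inl rfl) ?_
    rw [one_mul, hA, h1]
    push_cast
    ring
  · refine key (-1) (Or.inr rfl) ?_
    rw [hA, h1]
    push_cast
    ring

theorem result :
    ComputablePred Good ∧
    (∀ A : ℤ, Good A.natAbs → ∀ X Y : ℚ, X ^ 3 + Y ^ 3 = A → X = Y ∧ (A : ℚ) = 2 * X ^ 3) ∧
    (∃ c : ℝ, 0 < c ∧ ∃ X₀ : ℕ, ∀ X : ℕ, X₀ ≤ X →
      c * X / Real.sqrt (Real.log X) ≤ (((Finset.Icc 1 X).filter fun N => Family N).card : ℝ)) ∧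
    (0.56 : ℝ) < ∏' i : ℕ, (1 - (1 / 3 : ℝ) ^ (i + 1)) ∧
    Filter.Tendsto (fun X : ℕ =>
        (((Finset.Icc 1 X).filter fun N => Good N).card : ℝ) /
        (((Finset.Icc 1 X).filter fun N => Family N).card : ℝ)) Filter.atTop
      (nhds (∏' i : ℕ, (1 - (1 / 3 : ℝ) ^ (i + 1)))) := by
  have hQ : ∀ D, Class D → D ≠ 0 ∧ ∀ p : ℕ, p.Prime → ¬ p ^ 3 ∣ D := fun D h => ⟨h.1, h.2.1⟩
  have e2 : ∀ X : ℕ, (Finset.Icc 1 X).filter (fun D => Class D) =
      (Finset.Icc 1 X).filter fun D => Pool.Agent.Y703.CT.Cls D := by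
    intro X
    refine Finset.filter_congr fun D _ => ?_
    rw [class_iff]
  have e3 : ∀ X : ℕ, (Finset.Icc 1 X).filter (fun D => Class D ∧ NoSplit D) =
      (Finset.Icc 1 X).filter fun D => Pool.Agent.Y703.CT.Cls D ∧
        Pool.Agent.Y703.CT.NoSplit D := by
    intro X
    refine Finset.filter_congr fun D _ => ?_
    rw [class_iff, noSplit_iff]
  have hlow : ∃ c0 : ℝ, 0 < c0 ∧ ∃ X0 : ℕ, ∀ X : ℕ, X0 ≤ X →
      c0 * X / Real.sqrt (Real.log X) ≤ (Pool.Agent.R486.TC.cnt Class X : ℝ) := by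
    unfold Pool.Agent.R486.TC.cnt
    simp only [e2]
    exact Pool.Agent.R419.CF.low
  have hlim : Filter.Tendsto (fun X : ℕ =>
      (Pool.Agent.R486.TC.cnt (fun D => Class D ∧ NoSplit D) X : ℝ) /
        (Pool.Agent.R486.TC.cnt Class X : ℝ)) Filter.atTop
      (nhds (∏' i : ℕ, (1 - (1 / 3 : ℝ) ^ (i + 1)))) := by
    have h := Pool.Agent.R419.CF.t_FIN
    unfold Pool.Agent.Y703.CX.c3 at h
    unfold Pool.Agent.R486.TC.cnt
    simp only [e2, e3]
    exact h
  refine ⟨Pool.Agent.R486.TC.good_computable, ?_, ?_, Pool.Agent.Y461.CX.t_C3.2.2.2, ?_⟩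
  · intro A hA X Y hXY
    have h := points hA hXY
    refine ⟨h, ?_⟩
    rw [← hXY, ← h]
    ring
  · obtain ⟨c, hc, X₀, h⟩ := hlow
    refine ⟨c, hc, X₀, fun X hX => (h X hX).trans ?_⟩
    have := Pool.Agent.R486.TC.cnt_mono (P := Class) (Q := Family)
      (fun D hD => ⟨D, 1, by ring, one_ne_zero, hD⟩) X
    unfold Pool.Agent.R486.TC.cnt at this ⊢
    exact_mod_cast this
  · have h := Pool.Agent.R486.TC.dens (P := fun D => Class D ∧ NoSplit D) (Q := Class)
      (fun D hD => hD.1) hQ hlow hlim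
    unfold Pool.Agent.R486.TC.cnt Pool.Agent.R486.TC.Ext at h
    unfold Good Family
    exact h

end Pool.Agent.Results.MP_8e0b0b_nt.CubicTwistsCriterion
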