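import Mathlib
import Pool.Agent.R486.TC.FinPts
import Pool.Agent.R486.TC.NoPt
import Pool.Agent.R338.CT.Link

/-!
# `X³ + Y³ = A` for all `A` composed of the primes of a tuple at once

`p₀ ≡ 2, 5` and `p₁, …, p_r ≡ 1` modulo `9` are primes. If `p₀` is not a cube modulo the other `pᵢ`, and
these are cubes modulo each other, then `C_A(ℚ)` is known for all integers
`A = ± p₀^{a₀} ⋯ p_r^{a_r} n³`, `3 ∤ a₀` (there are infinitely many cube-free parts if the `pᵢ` vary, and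
`2 · 3 ^ r` for one tuple): `C_A(ℚ) = {O}`, or `p₀ = 2`, `A = 2 m³` and `C_A(ℚ) = {O, (m, m)}`. If the primes
`pᵢ` run through arbitrary disjoint sets `Pᵢ` of such primes up to `Xᵢ`, this simple criterion holds for
`2 ^ r / 3 ^ (r ^ 2)` of the tuples, up to a power saving.

The arithmetic for a single `A` is joint work (project CT, helper703 and others), the points on the
diagonal are from `R486/TC` (helper486), the bilinear sums are of helper261 and helper779, the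
equidistribution in a box is of helper419, the translations are of helper710 and helper419.
-/

set_option autoImplicit false

open scoped Classical

namespace Pool.Agent.Results.MP_8e0b0b_nt.TuplesOfPrimes

open Finset

/-- `P 0` consists of primes `≡ 2, 5` modulo `9`, the other `P i` of primes `≡ 1` modulo `9`, those of
`P i` are at most `X i`, the sets are disjoint, and `1 ≤ z ≤ X i` for all `i`. -/
structure Sets {r : ℕ} (P : Fin (r + 1) → Finset ℕ) (X : Fin (r + 1) → ℕ) (z : ℕ) : Prop where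
  one_le : 1 ≤ z
  z_le : ∀ i, z ≤ X i
  first : ∀ p ∈ P 0, p % 9 = 2 ∨ p % 9 = 5
  others : ∀ i, i ≠ 0 → ∀ p ∈ P i, p % 9 = 1
  primes : ∀ i, ∀ p ∈ P i, p.Prime ∧ p ≤ X i
  disjoint : ∀ i l, i ≠ l → Disjoint (P i) (P l)

/-- `p₀` is not a cube modulo the other primes, and these are cubes modulo each other. -/
def Linked {r : ℕ} (p : Fin (r + 1) → ℕ) : Prop :=
  (∀ i, i ≠ 0 → ¬ ∃ x : ℤ, (p i : ℤ) ∣ (p 0 : ℤ) - x ^ 3) ∧
    ∀ i j, i ≠ 0 → j ≠ 0 → j ≠ i → ∃ x : ℤ, (p i : ℤ) ∣ (p j : ℤ) - x ^ 3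

/-- `A = ± p₀^{a₀} ⋯ p_r^{a_r} n³` with `3 ∤ a₀`, `n ≠ 0`. -/
def Composed {r : ℕ} (p : Fin (r + 1) → ℕ) (A : ℤ) : Prop :=
  ∃ (a : Fin (r + 1) → ℕ) (n : ℕ), n ≠ 0 ∧ ¬ 3 ∣ a 0 ∧ A.natAbs = (∏ i, p i ^ a i) * n ^ 3

theorem Sets.to {r : ℕ} {P : Fin (r + 1) → Finset ℕ} {X : Fin (r + 1) → ℕ} {z : ℕ}
    (hS : Sets P X z) : Pool.Agent.R338.CT.Sets P X z ∧ Pool.Agent.R338.CT.Nine P :=
  ⟨⟨hS.one_le, hS.z_le, fun p hp => by have := hS.first p hp; omega,
    fun i hi p hp => by have := hS.others i hi p hp; omega, hS.primes, hS.disjoint⟩,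
    ⟨hS.first, hS.others⟩⟩

theorem pts {r : ℕ} {P : Fin (r + 1) → Finset ℕ} {X : Fin (r + 1) → ℕ} {z : ℕ}
    (hS : Sets P X z) {p : Fin (r + 1) → ℕ} (hp : ∀ i, p i ∈ P i) (hl : Linked p) {A : ℤ}
    (hA : Composed p A) {x y : ℚ} (h : x ^ 3 + y ^ 3 = A) :
    p 0 = 2 ∧ x = y ∧ (A : ℚ) = 2 * x ^ 3 := by
  obtain ⟨a, n, hn, ha, hAn⟩ := hA
  set e : Fin (r + 1) → ZMod 3 := fun i => (a i : ZMod 3) with he
  have hval : ∀ i, (e i).val = a i % 3 := fun i => by rw [he]; exact ZMod.val_natCast _ _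
  have he0 : e 0 ≠ 0 := by
    intro h0
    have h1 := hval 0
    rw [h0, ZMod.val_zero] at h1
    omega
  have hpr : ∀ i, (p i).Prime := fun i => (hS.primes i _ (hp i)).1
  obtain ⟨hC, hN⟩ := Pool.Agent.R338.CT.nosplit_DE hS.to.1 hp hS.to.2 hl he0
  set D : ℕ := Pool.Agent.R338.CT.DE p e with hD
  set N : ℕ := (∏ i, p i ^ (a i / 3)) * n with hNd
  have hN0 : N ≠ 0 := mul_ne_zero (Finset.prod_ne_zero_iff.2 fun i _ =>
    pow_ne_zero _ (hpr i).ne_zero) hn
  have hDN : A.natAbs = D * N ^ 3 := by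
    rw [hAn, hD, hNd]
    unfold Pool.Agent.R338.CT.DE
    rw [mul_pow, ← mul_assoc, ← Finset.prod_pow, ← Finset.prod_mul_distrib]
    congr 1
    refine prod_congr rfl fun i _ => ?_
    rw [hval, ← pow_mul, ← pow_add]
    congr 1
    omega
  have hfac : D.factorization (p 0) = (e 0).val :=
    Pool.Agent.R338.CT.fac_at (hS.to.1.inj hp) hpr e 0
  have hv : (e 0).val = 1 ∨ (e 0).val = 2 := by
    have h1 := ZMod.val_lt (e 0)
    have h2 : (e 0).val ≠ 0 := fun h => he0 ((ZMod.val_eq_zero _).1 h)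
    omega
  have hD0 : D ≠ 0 := hC.1.1
  have hD1 : 1 < D := by
    by_contra h1
    have h2 : D = 1 := by omega
    rw [h2, Nat.factorization_one] at hfac
    simp only [Finsupp.coe_zero, Pi.zero_apply] at hfac
    omega
  -- the sign
  obtain ⟨s, hs, hsA⟩ : ∃ s : ℤ, (s = 1 ∨ s = -1) ∧ A = s * (D * N ^ 3 : ℕ) := by
    rcases Int.natAbs_eq A with h1 | h1
    · exact ⟨1, Or.inl rfl, by rw [one_mul, ← hDN]; exact h1⟩
    · exact ⟨-1, Or.inr rfl, by rw [← hDN, neg_one_mul]; exact h1⟩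
  have hs3 : (s : ℚ) ^ 2 = 1 := by
    rcases hs with rfl | rfl <;> norm_num
  have hNq : (N : ℚ) ≠ 0 := by exact_mod_cast hN0
  have hsq : (s : ℚ) ≠ 0 := by
    intro h0
    rw [h0] at hs3
    norm_num at hs3
  have hAq : (A : ℚ) = s * (D * N ^ 3) := by
    rw [hsA]
    push_cast
    ring
  have hxy : (s * x / N) ^ 3 + (s * y / N) ^ 3 = (D : ℚ) := by
    have h1 : (s * x / N) ^ 3 + (s * y / N) ^ 3 = s ^ 2 * s * (x ^ 3 + y ^ 3) / N ^ 3 := by
      field_simp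
    rw [h1, h, hAq, hs3]
    have h2 : (s : ℚ) * (s * (D * N ^ 3)) = s ^ 2 * (D * N ^ 3) := by ring
    rw [one_mul, h2, hs3, one_mul]
    field_simp
  have hd := Pool.Agent.R486.TC.diag_of_finite hC.1.2.2 hD1
    (Pool.Agent.R486.TC.fin_of hC hN) hxy
  have hxe : x = y := by
    field_simp at hd
    exact hd
  refine ⟨?_, hxe, ?_⟩
  · by_contra h2
    have := Fact.mk (hpr 0)
    rw [← hd] at hxy
    have h3 : (D : ℚ) = ((2 : ℕ) : ℚ) * (s * x / N) ^ 3 := by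
      rw [← hxy]
      push_cast
      ring
    have hw : (s * x / N : ℚ) ≠ 0 := by
      intro h0
      rw [h0] at h3
      norm_num at h3
      exact hD0 h3
    have h4 := congrArg (padicValRat (p 0)) h3
    rw [padicValRat.mul (by norm_num) (pow_ne_zero _ hw), padicValRat.pow,
      padicValRat.of_nat, padicValRat.of_nat, ← Nat.factorization_def _ (hpr 0), hfac,
      padicValNat_primes h2] at h4
    push_cast at h4
    rcases hv with hv | hv <;> rw [hv] at h4 <;> push_cast at h4 <;> omega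
  · rw [← h, ← hxe]
    ring

/-- **Main theorem.** -/
theorem result : ∃ C : ℝ, 0 < C ∧
    ∀ (r : ℕ) (P : Fin (r + 1) → Finset ℕ) (X : Fin (r + 1) → ℕ) (z : ℕ), Sets P X z →
      (∀ p : Fin (r + 1) → ℕ, (∀ i, p i ∈ P i) → Linked p → ∀ A : ℤ, Composed p A →
        ∀ x y : ℚ, x ^ 3 + y ^ 3 = A → p 0 = 2 ∧ x = y ∧ (A : ℚ) = 2 * x ^ 3) ∧
      |({p : Fin (r + 1) → ℕ | (∀ i, p i ∈ P i) ∧ Linked p}.ncard : ℝ) -
          2 ^ r / 3 ^ (r ^ 2) * ∏ i, ((P i).card : ℝ)| ≤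
        3 ^ (r ^ 2) * C * (z : ℝ) ^ (-(1 / 12 : ℝ)) * ∏ i, (X i : ℝ) := by
  obtain ⟨C, hC1, hC⟩ := Pool.Agent.R338.CT.linked_count
  refine ⟨C, by linarith, fun r P X z hS => ⟨fun p hp hl A hA x y h => pts hS hp hl hA h, ?_⟩⟩
  have h1 := hC r P X z hS.to.1 hS.to.2
  rw [sq]
  refine le_trans (le_of_eq ?_) (h1.trans (le_of_eq ?_))
  · rfl
  · ring

end Pool.Agent.Results.MP_8e0b0b_nt.TuplesOfPrimes
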